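import Pool.Statements.S03074
import Pool.Agent.Lib.WeakOrbit

set_option autoImplicit false
open Filter Topology NNReal
open Pool Pool.MP_3fe7c1_an

namespace Pool.Agent.S03074

/-- The negation of the preceding statement: For every complex Banach space X and strongly continuous semigroup T on X that is weakly stable (y(T t x)→0 for all x, y∈X') and not exponentially stable, every positive antitone a:ℝ≥0→ℝ tending to 0 admits x∈X, y∈X' with a t ≤ ∣y(T t x)∣ for all t≥0. -/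
theorem result :
    ¬ (∀ (X : Type) [NormedAddCommGroup X] [NormedSpace ℂ X] [CompleteSpace X]
      (T : ℝ≥0 → (X →L[ℂ] X)),
      T 0 = 1 →
      (∀ s t : ℝ≥0, T (s + t) = T s * T t) →
      (∀ x : X, Continuous (fun t : ℝ≥0 => T t x)) →
      (∀ (x : X) (y : X →L[ℂ] ℂ), Tendsto (fun t : ℝ≥0 => y (T t x)) atTop (𝓝 0)) →
      (¬ ∃ M ω : ℝ, 0 < ω ∧ ∀ t : ℝ≥0, ‖T t‖ ≤ M * Real.exp (-ω * (t : ℝ))) →
      ∀ a : ℝ≥0 → ℝ, (∀ t, 0 < a t) → Antitone a → Tendsto a atTop (𝓝 0) →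
        ∃ (x : X) (y : X →L[ℂ] ℂ), ∀ t : ℝ≥0, a t ≤ ‖y (T t x)‖) :=
  Pool.Agent.WeakOrbit.main

end Pool.Agent.S03074
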