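import Pool.Statements.S03783
import Pool.Agent.Lib.PolyIndex

set_option autoImplicit false
open scoped ENNReal Topology
open Filter
open Pool Pool.MP_9ca510_an

namespace Pool.Agent.S03783

/-- For any nonempty family of nontrivial complex Banach spaces and every k ≥ 1, the order-k polynomial numerical index of their c0-sum and of their ell-infinity-sum both equal the infimum of the order-k polynomial numerical indices of the summands. -/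
theorem result :
    ∀ (Λ : Type) [Nonempty Λ] (X : Λ → Type) [∀ i, NormedAddCommGroup (X i)]
      [∀ i, NormedSpace ℂ (X i)] [∀ i, CompleteSpace (X i)] [∀ i, Nontrivial (X i)]
      (C : Submodule ℂ (lp X ∞)),
      (∀ f : lp X ∞, f ∈ C ↔ Tendsto (fun i => ‖f i‖) cofinite (𝓝 0)) →
      ∀ k : ℕ, 1 ≤ k →
        (sInf {r : ℝ | ∃ A : ContinuousMultilinearMap ℂ (fun _ : Fin k => C) C,
            sSup {s : ℝ | ∃ x : C, ‖x‖ ≤ 1 ∧ s = ‖A (fun _ => x)‖} = 1 ∧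
            r = sSup {s : ℝ | ∃ (x : C) (φ : C →L[ℂ] ℂ), ‖x‖ = 1 ∧ ‖φ‖ = 1 ∧ φ x = 1 ∧
                  s = ‖φ (A (fun _ => x))‖}}
          = ⨅ i, sInf {r : ℝ | ∃ A : ContinuousMultilinearMap ℂ (fun _ : Fin k => X i) (X i),
            sSup {s : ℝ | ∃ x : X i, ‖x‖ ≤ 1 ∧ s = ‖A (fun _ => x)‖} = 1 ∧
            r = sSup {s : ℝ | ∃ (x : X i) (φ : X i →L[ℂ] ℂ), ‖x‖ = 1 ∧ ‖φ‖ = 1 ∧ φ x = 1 ∧
                  s = ‖φ (A (fun _ => x))‖}}) ∧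
        (sInf {r : ℝ | ∃ A : ContinuousMultilinearMap ℂ (fun _ : Fin k => lp X ∞) (lp X ∞),
            sSup {s : ℝ | ∃ x : lp X ∞, ‖x‖ ≤ 1 ∧ s = ‖A (fun _ => x)‖} = 1 ∧
            r = sSup {s : ℝ | ∃ (x : lp X ∞) (φ : lp X ∞ →L[ℂ] ℂ), ‖x‖ = 1 ∧ ‖φ‖ = 1 ∧
                  φ x = 1 ∧ s = ‖φ (A (fun _ => x))‖}}
          = ⨅ i, sInf {r : ℝ | ∃ A : ContinuousMultilinearMap ℂ (fun _ : Fin k => X i) (X i),
            sSup {s : ℝ | ∃ x : X i, ‖x‖ ≤ 1 ∧ s = ‖A (fun _ => x)‖} = 1 ∧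
            r = sSup {s : ℝ | ∃ (x : X i) (φ : X i →L[ℂ] ℂ), ‖x‖ = 1 ∧ ‖φ‖ = 1 ∧ φ x = 1 ∧
                  s = ‖φ (A (fun _ => x))‖}}) :=
  Pool.Agent.PolyIndex.main

end Pool.Agent.S03783
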