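import Pool.Statements.S05651
import Pool.Agent.Lib.Harm

set_option autoImplicit false
open Pool Pool.MP_4150d6_co

namespace Pool.Agent.S05651

/-- the missing edges: a 4-cycle on `{3,4,6,7}` -/
def miss (a b : Fin 8) : Bool :=
  (a == 3 && b == 7) || (a == 7 && b == 3) || (a == 4 && b == 7) || (a == 7 && b == 4) ||
  (a == 4 && b == 6) || (a == 6 && b == 4) || (a == 3 && b == 6) || (a == 6 && b == 3)

/-- `K_8` minus a 4-cycle -/
def G8 : SimpleGraph (Fin 8) where
  Adj a b := a ≠ b ∧ miss a b = false
  symm := ⟨by decide⟩
  loopless := ⟨by decide⟩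

instance : DecidableRel G8.Adj := fun a b => inferInstanceAs (Decidable (a ≠ b ∧ miss a b = false))

/-- the harmonious labelling -/
def lab : Fin 8 → ZMod 24 := ![0, 1, 2, 4, 8, 13, 18, 22]

lemma card_edges : G8.edgeFinset.card = 24 := by decide +kernel

lemma lab_inj : Function.Injective lab := by
  have : ∀ a b : Fin 8, lab a = lab b → a = b := by decide +kernel
  exact fun a b h => this a b h

lemma lab_sums : ∀ a b c d : Fin 8, G8.Adj a b → G8.Adj c d →
    lab a + lab b = lab c + lab d → s(a, b) = s(c, d) := by decide +kernel

lemma not_tree : ¬ G8.IsTree := by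
  intro h
  have := h.card_edgeFinset
  rw [card_edges] at this
  simp at this

/-- Some finite simple graph with q ≥ 1 edges is harmonious (vertex labels in Z_q, injective except one repeat allowed for trees, distinct edge sums mod q) but has no sequential labeling (injective labels in 0..q−1, or 0..q for trees, with edge sums exactly q consecutive integers). -/
theorem result :
    ∃ (n : ℕ) (G : SimpleGraph (Fin n)) (q : ℕ),
      Nat.card G.edgeSet = q ∧ 1 ≤ q ∧
      (∃ f : Fin n → ZMod q,
        (Function.Injective f ∨ (G.IsTree ∧ Function.Surjective f)) ∧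
        ∀ a b c d : Fin n, G.Adj a b → G.Adj c d →
          f a + f b = f c + f d → s(a, b) = s(c, d)) ∧
      ¬ (∃ (f : Fin n → ℕ) (m : ℕ),
          Function.Injective f ∧
          ((∀ v, f v < q) ∨ (G.IsTree ∧ ∀ v, f v ≤ q)) ∧
          (∀ a b : Fin n, G.Adj a b → m ≤ f a + f b ∧ f a + f b < m + q) ∧
          ∀ a b c d : Fin n, G.Adj a b → G.Adj c d →
            f a + f b = f c + f d → s(a, b) = s(c, d)) := by
  classical
  refine ⟨8, G8, 24, ?_, by norm_num, ⟨lab, Or.inl lab_inj, lab_sums⟩, ?_⟩
  · rw [Nat.card_eq_fintype_card, ← SimpleGraph.edgeFinset_card]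
    exact card_edges
  · rintro ⟨f, m, hinj, hlt, hrange, hsum⟩
    have hlt' : ∀ v, f v < 24 := by
      rcases hlt with h | ⟨h, _⟩
      · exact h
      · exact absurd h not_tree
    -- the edge sums are all of `[m, m+23]`
    let σ : Sym2 (Fin 8) → ℕ := Sym2.lift ⟨fun a b => f a + f b, fun a b => add_comm _ _⟩
    have hσ : ∀ a b, σ s(a, b) = f a + f b := fun a b => rfl
    have himg : (G8.edgeFinset).image σ = Finset.Ico m (m + 24) := by
      apply Finset.eq_of_subset_of_card_le
      · intro s hs
        rw [Finset.mem_image] at hs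
        obtain ⟨e, he, rfl⟩ := hs
        induction e using Sym2.ind with
        | _ a b =>
          rw [SimpleGraph.mem_edgeFinset, SimpleGraph.mem_edgeSet] at he
          rw [hσ, Finset.mem_Ico]
          exact hrange a b he
      · rw [Nat.card_Ico, Finset.card_image_of_injOn, card_edges]
        · omega
        · intro e he e' he' hee
          induction e using Sym2.ind with
          | _ a b =>
            induction e' using Sym2.ind with
            | _ c d =>
              rw [Finset.mem_coe, SimpleGraph.mem_edgeFinset, SimpleGraph.mem_edgeSet] at he he'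
              exact hsum a b c d he he' hee
    have hall : ∀ s, m ≤ s → s < m + 24 → ∃ a b, a ≠ b ∧ f a + f b = s := by
      intro s h1 h2
      have : s ∈ (G8.edgeFinset).image σ := by rw [himg, Finset.mem_Ico]; exact ⟨h1, h2⟩
      rw [Finset.mem_image] at this
      obtain ⟨e, he, rfl⟩ := this
      induction e using Sym2.ind with
      | _ a b =>
        rw [SimpleGraph.mem_edgeFinset, SimpleGraph.mem_edgeSet] at he
        exact ⟨a, b, he.ne, rfl⟩
    -- normalise so that the smallest label is 0
    obtain ⟨v0, -, hv0⟩ := Finset.exists_min_image (Finset.univ : Finset (Fin 8)) f ⟨0, by simp⟩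
    have hmin : ∀ v, f v0 ≤ f v := fun v => hv0 v (Finset.mem_univ _)
    have hm : 2 * f v0 ≤ m := by
      obtain ⟨a, b, _, hs⟩ := hall m (le_refl _) (by omega)
      have := hmin a
      have := hmin b
      omega
    let g : Fin 8 → ℕ := fun v => f v - f v0
    have hg : ∀ v, g v + f v0 = f v := fun v => by
      have := hmin v
      simp only [g]; omega
    have hginj : Function.Injective g := by
      intro a b hab
      apply hinj
      rw [← hg a, ← hg b, hab]
    refine Pool.Agent.Lib.Harm.no_labels (Finset.univ.image g) (m - 2 * f v0) ?_ ?_ ?_ ?_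
    · rw [Finset.card_image_of_injective _ hginj]; simp
    · intro a ha
      rw [Finset.mem_image] at ha
      obtain ⟨v, _, rfl⟩ := ha
      have := hlt' v
      have := hg v
      omega
    · rw [Finset.mem_image]
      exact ⟨v0, Finset.mem_univ _, by simp [g]⟩
    · intro s h1 h2
      obtain ⟨a, b, hab, hs⟩ := hall (s + 2 * f v0) (by omega) (by omega)
      refine ⟨g a, Finset.mem_image_of_mem _ (Finset.mem_univ _), g b,
        Finset.mem_image_of_mem _ (Finset.mem_univ _), hginj.ne hab, ?_⟩
      have := hg a
      have := hg b
      omega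

end Pool.Agent.S05651
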