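import Pool.Statements.S06787
import Pool.Agent.Lib.GHmat

set_option autoImplicit false
open Pool Pool.MP_8d311f_co

namespace Pool.Agent.S06787

/-- There is a finite group N of order w dividing v and a v×v matrix over N such that, for any two distinct rows, each group element occurs exactly v/w times among the entrywise quotients h_ik h_jk⁻¹, while this fails for some pair of distinct columns. -/
theorem result :
    ∃ (N : Type) (_ : Group N) (_ : Finite N) (v : ℕ) (H : Fin v → Fin v → N),
      Nat.card N ∣ v ∧
      (∀ i j : Fin v, i ≠ j → ∀ g : N,
        Nat.card {k : Fin v // H i k * (H j k)⁻¹ = g} = v / Nat.card N) ∧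
      ¬ (∀ i j : Fin v, i ≠ j → ∀ g : N,
        Nat.card {k : Fin v // H k i * (H k j)⁻¹ = g} = v / Nat.card N) :=
  Pool.Agent.GHmat.main

end Pool.Agent.S06787
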