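import Pool.Statements.S07922
import Pool.Agent.Lib.TreeEnergy

set_option autoImplicit false
open Pool Pool.MP_d26300_co

namespace Pool.Agent.S07922

/-- The negation of the preceding statement: For trees T, S on the same even number of vertices: if the product of absolute adjacency eigenvalues is 1 for T and 0 for S, then the sum of absolute eigenvalues (energy) of T is strictly larger than that of S. -/
theorem result :
    ¬ (∀ (n : ℕ) (T S : SimpleGraph (Fin n)) [DecidableRel T.Adj] [DecidableRel S.Adj],
      Even n → T.IsTree → S.IsTree →
      ((T.adjMatrix ℝ).charpoly.roots.map (fun x : ℝ => |x|)).prod = 1 →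
      ((S.adjMatrix ℝ).charpoly.roots.map (fun x : ℝ => |x|)).prod = 0 →
      ((S.adjMatrix ℝ).charpoly.roots.map (fun x : ℝ => |x|)).sum <
        ((T.adjMatrix ℝ).charpoly.roots.map (fun x : ℝ => |x|)).sum) :=
  Pool.Agent.TreeEnergy.main

end Pool.Agent.S07922
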