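import Pool.Statements.S08204
import Pool.Agent.Lib.SelfComp17

set_option autoImplicit false
open Pool Pool.MP_e2b918_co

namespace Pool.Agent.S08204

/-- The negation of the preceding statement: Every finite regular self-complementary graph has an isomorphism onto its complement whose permutation of the vertices has at most one fixed point, with every other vertex lying on a cycle of length exactly 4. -/
theorem result :
    ¬ (∀ (V : Type) [Fintype V] [DecidableEq V] (G : SimpleGraph V) [DecidableRel G.Adj],
      (∃ d : ℕ, G.IsRegularOfDegree d) →
      Nonempty (G ≃g Gᶜ) →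
      ∃ σ : G ≃g Gᶜ,
        (∀ u v : V, σ u = u → σ v = v → u = v) ∧
        (∀ v : V, σ v ≠ v → σ (σ v) ≠ v ∧ σ (σ (σ (σ v))) = v)) :=
  Pool.Agent.SelfComp17.frozen

end Pool.Agent.S08204
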