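import Pool.Statements.S08322
import Pool.Agent.Lib.RandSub

set_option autoImplicit false
open MeasureTheory
open Pool Pool.MP_ebd703_co

namespace Pool.Agent.S08322

/-- The negation of the preceding statement: For every countably infinite group G, picking each element independently with probability 1/2 gives, with probability zero, a subset fixed setwise by some non-identity automorphism of G. -/
theorem result :
    ¬ (∀ (G : Type) [Group G] [Countable G] [Infinite G],
      Measure.infinitePi (fun _ : G => (PMF.uniformOfFintype Bool).toMeasure)
        {f : G → Bool | ∃ φ : MulAut G, φ ≠ 1 ∧ ∀ g : G, f (φ g) = f g} = 0) :=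
  Pool.Agent.RandSub.frozen

end Pool.Agent.S08322
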