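import Pool.Statements.S13470
import Pool.Agent.Lib.EntPow

set_option autoImplicit false
open MeasureTheory ProbabilityTheory
open Pool Pool.MP_dfe8d2_pr

namespace Pool.Agent.S13470

/-- The negation of the preceding statement: For independent real random variables X1, X2, X3 with densities, whose relevant entropies are finite, e^{2H(X1+X2+X3)} + e^{2H(X2)} ≥ e^{2H(X1+X2)} + e^{2H(X2+X3)}, where H is differential entropy −∫ f log f. -/
theorem result :
    ¬ (∀ (Ω : Type) [MeasurableSpace Ω] (P : Measure Ω) [IsProbabilityMeasure P]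
      (X : Fin 3 → Ω → ℝ),
      (∀ i, Measurable (X i)) →
      (∀ i, HasPDF (X i) P volume) →
      iIndepFun X P →
      ∀ H : (Ω → ℝ) → ℝ,
        (∀ Y : Ω → ℝ, H Y = -∫ x, (pdf Y P volume x).toReal * Real.log (pdf Y P volume x).toReal) →
        (∀ Y ∈ ({X 1, X 0 + X 1, X 1 + X 2, X 0 + X 1 + X 2} : Set (Ω → ℝ)),
          Integrable (fun x => (pdf Y P volume x).toReal * Real.log (pdf Y P volume x).toReal)) →
        Real.exp (2 * H (X 0 + X 1 + X 2)) + Real.exp (2 * H (X 1))
          ≥ Real.exp (2 * H (X 0 + X 1)) + Real.exp (2 * H (X 1 + X 2))) :=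
  Pool.Agent.EntPow.main

end Pool.Agent.S13470
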